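import Pool.Agent.Helper77.MT.Zar

/-!
Compatible systems of Galois representations with a large residual representation: definitions.

`Γ` is the Galois group of a number field, `X` is a finite set of characters (embeddings of the coefficient field), and
`ρ x` is the `ℓ`-adic representation on the eigenspace for `x`, over an algebraically closed field.
-/

set_option autoImplicit false

open Matrix H77MT

namespace Pool.Agent.Helper79.KN

/-- A family of representations. -/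
abbrev Rep (Γ X n K : Type) [Group Γ] [Fintype n] [DecidableEq n] [Field K] : Type := X → Γ →* GL n K

variable {Γ X T n K K₀ : Type} [Group Γ] [DecidableEq X] [Fintype X] [Fintype n] [DecidableEq n] [Field K] [Field K₀]

/-- The matrix of `γ` on the sum of the eigenspaces. -/
def mat (ρ : Rep Γ X n K) (γ : Γ) : Matrix (n × X) (n × X) K := blockDiagonal fun x => (ρ x γ : Matrix n n K)

/-- The image of a subgroup. -/
def img (ρ : Rep Γ X n K) (Δ : Subgroup Γ) : Set (Matrix (n × X) (n × X) K) := {M | ∃ γ ∈ Δ, M = mat ρ γ}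

/-- `R x p` are the projections to the parts of weight `p` for a cocharacter of the Zariski closures of all the subgroups of
finite index, with the numbers `h x p`. -/
structure IsHT (ρ : Rep Γ X n K) (h : X → ℤ → ℕ) (S : Finset ℤ) (R : X → ℤ → Matrix n n K) : Prop where
  mul : ∀ x p q, R x p * R x q = if p = q then R x p else 0
  supp : ∀ x p, p ∉ S → R x p = 0
  sum : ∀ x, ∑ p ∈ S, R x p = 1
  rank : ∀ x p, (R x p).rank = h x p
  mem : ∀ Δ : Subgroup Γ, Δ.FiniteIndex → ∀ z : K, z ≠ 0 →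
    blockDiagonal (fun x => ∑ p ∈ S, z ^ p • R x p) ∈ zcl (img ρ Δ)

/-- Hodge-Tate decompositions with the numbers `h t`, for all `t`. -/
def HasHT (ρ : Rep Γ X n K) (h : T → X → ℤ → ℕ) : Prop := ∀ t, ∃ S R, IsHT ρ (h t) S R

/-- `A` is the reduction of `M`. -/
def Red (O : ValuationSubring K) {r : ℕ} [Fact r.Prime] (j : ZMod r →+* IsLocalRing.ResidueField O) (M : Matrix n n K)
    (A : Matrix n n (ZMod r)) : Prop :=
  ∃ M₀ : Matrix n n O, M = M₀.map (algebraMap O K) ∧ M₀.map (IsLocalRing.residue O) = A.map j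

/-- The representations are integral, and each residual representation contains the isometries `A` of a nondegenerate
symmetric or alternating form over the field with `r` elements with `(A - 1) ^ 2 = 0`. -/
structure IsBig (ρ : Rep Γ X n K) (O : ValuationSubring K) (r : ℕ) [Fact r.Prime]
    (j : ZMod r →+* IsLocalRing.ResidueField O) : Prop where
  int : ∀ x γ a b, (ρ x γ : Matrix n n K) a b ∈ O
  big : ∀ x, ∃ J : Matrix n n (ZMod r), IsUnit J.det ∧ (Jᵀ = J ∨ Jᵀ = -J) ∧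
    ∀ A : Matrix n n (ZMod r), Aᵀ * J * A = J → (A - 1) * (A - 1) = 0 → ∃ γ, Red O j (ρ x γ : Matrix n n K) A

/-- The representations `ρ` and `ρ₀` are members of a compatible system: class field theory for the determinants of the
subspaces stable under subgroups of finite index, and Serre's theorem on the eigenvalues of a Frobenius element. -/
structure IsCompat (ρ₀ : Rep Γ X n K₀) (ρ : Rep Γ X n K) : Prop where
  det : ∀ (x : X) (Δ : Subgroup Γ), Δ.FiniteIndex → ∀ W : Submodule K (n → K),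
    (∀ γ ∈ Δ, ∀ w ∈ W, (ρ x γ : Matrix n n K) *ᵥ w ∈ W) →
    ∃ (Δ' : Subgroup Γ) (ψ : Δ' →* K₀ˣ), Δ' ≤ Δ ∧ Δ'.FiniteIndex ∧ ∀ γ : Δ', ∃ y : Fin (Module.finrank K W) → K₀,
      (∀ i, (ρ₀ x γ : Matrix n n K₀).charpoly.IsRoot (y i)) ∧ (ψ γ : K₀) = ∏ i, y i
  frob : ∀ Δ : Subgroup Γ, Δ.FiniteIndex → ∃ γ ∈ Δ, ∃ (u : X → n → K) (v : X → n → K₀),
    (∀ x, (ρ x γ : Matrix n n K).charpoly = ∏ i, (Polynomial.X - Polynomial.C (u x i))) ∧
    (∀ x, (ρ₀ x γ : Matrix n n K₀).charpoly = ∏ i, (Polynomial.X - Polynomial.C (v x i))) ∧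
    ∀ (x : X) (m : n → ℤ), ∏ i, u x i ^ m i = 1 → ∏ i, v x i ^ m i = 1 ∧
      ∃ Δ' : Subgroup Γ, Δ' ≤ Δ ∧ Δ'.FiniteIndex ∧ ∀ γ' ∈ Δ', ∃ v' : n → K₀,
        (ρ₀ x γ' : Matrix n n K₀).charpoly = ∏ i, (Polynomial.X - Polynomial.C (v' i)) ∧ ∏ i, v' i ^ m i = 1

/-- No eigenspace has symmetric numbers for all `t`, and different eigenspaces have different numbers, up to a shift and a
symmetry. -/
structure IsSep (h : T → X → ℤ → ℕ) : Prop where
  asym : ∀ x, ∃ t, ∀ w : ℤ, ∃ p, h t x p ≠ h t x (w - p)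
  sep : ∀ x x', x ≠ x' → ∃ t, ∀ w : ℤ, (∃ p, h t x p ≠ h t x' (w + p)) ∧ ∃ p, h t x p ≠ h t x' (w - p)

/-- The Zariski closure contains the product of the special linear groups. -/
def IsFull (ρ : Rep Γ X n K) : Prop :=
  ∀ Δ : Subgroup Γ, Δ.FiniteIndex → ∀ M : X → Matrix n n K, (∀ x, (M x).det = 1) → blockDiagonal M ∈ zcl (img ρ Δ)

/-- The number of `i`, `0 < i k < a k`, with integral part of `∑ i k / a k + s / N` equal to `q`. -/
def spec {m : ℕ} (a : Fin m → ℕ) (N s : ℕ) (q : ℤ) : ℕ :=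
  ((Fintype.piFinset fun k => Finset.Ioo 0 (a k)).filter fun i => ⌊∑ k, (i k : ℚ) / a k + (s : ℚ) / N⌋ = q).card

/-- **The statement.** -/
def Main : Prop :=
  (∀ (Γ X T n K₀ K : Type) [Group Γ] [Fintype X] [DecidableEq X] [Fintype n] [DecidableEq n] [Field K₀]
    [IsAlgClosed K₀] [CharZero K₀] [Field K] [IsAlgClosed K] [CharZero K] (r : ℕ) [Fact r.Prime]
    (O : ValuationSubring K₀) (j : ZMod r →+* IsLocalRing.ResidueField O) (h : T → X → ℤ → ℕ) (ρ₀ : Rep Γ X n K₀),
    4 < Fintype.card n → Fintype.card n < r → IsSep h → IsBig ρ₀ O r j → HasHT ρ₀ h →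
    IsFull ρ₀ ∧ ∀ ρ : Rep Γ X n K, HasHT ρ h → IsCompat ρ₀ ρ → IsFull ρ) ∧
  ∀ (m : ℕ) (a : Fin m → ℕ) (r e : ℕ), r.Prime → 0 < e → (∀ k l, k ≠ l → Nat.Coprime (a k) (a l)) → (∀ k, 1 < a k) →
    2 < ∏ k, (a k - 1) → 2 * ∏ k, a k < r →
    IsSep (X := {u : ℕ // 0 < u ∧ 2 * u < r ^ e}) (T := {t : ℕ // Nat.Coprime t r})
      fun t u q => spec a (r ^ e) (t.1 * u.1 % r ^ e) q

end Pool.Agent.Helper79.KN
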