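import Pool.Agent.Helper79.KN.Asm
import Pool.Agent.Helper79.KN.Lift
import Pool.Agent.Helper85.KN.SpanSq
import Pool.Agent.Helper35.KN.Sep
import Pool.Agent.Helper31.KN.FullL
import Pool.Agent.Helper3.KN.Casimir
import Pool.Agent.Helper15.KN.D

/-! The assembly, second part. -/

set_option autoImplicit false

open Matrix H77MT

namespace Pool.Agent.Helper79.KN

section form
variable {F : Type*} [Field F] {n : Type*} [Fintype n] [DecidableEq n]

/-- the size of an alternating invertible matrix is even -/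
theorem even_of_alt {J : Matrix n n F} (h2 : (2 : F) ≠ 0) (hJ : IsUnit J.det) (hs : Jᵀ = -J) : Even (Fintype.card n) := by
  by_contra hodd
  rw [Nat.not_even_iff_odd] at hodd
  have h1 : J.det = -J.det := by
    conv_lhs => rw [← det_transpose, hs, det_neg, hodd.neg_one_pow, neg_one_mul]
  have h3 : 2 * J.det = 0 := by linear_combination h1
  rcases mul_eq_zero.1 h3 with h4 | h4
  · exact h2 h4
  · exact hJ.ne_zero h4

theorem isom_of_sq {J y : Matrix n n F} (h1 : yᵀ * J + J * y = 0) (h2 : y * y = 0) :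
    (1 + y)ᵀ * J * (1 + y) = J ∧ (1 + y - 1) * (1 + y - 1) = 0 := by
  constructor
  · have h3 : yᵀ * J = -(J * y) := eq_neg_of_add_eq_zero_left h1
    rw [transpose_add, transpose_one]
    have : (1 + yᵀ) * J * (1 + y) = J + (yᵀ * J + J * y) + yᵀ * J * y := by noncomm_ring
    rw [this, h1, h3, neg_mul, mul_assoc, h2, mul_zero, neg_zero, add_zero, add_zero]
  · rw [add_sub_cancel_left, h2]

end form

section full
variable {Γ X T n : Type} [Group Γ] [DecidableEq X] [Fintype X] [Fintype n] [DecidableEq n] {K : Type} [Field K]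

/-- the Lie algebra of one eigenspace -/
theorem block_full [IsAlgClosed K] [CharZero K] {r : ℕ} [Fact r.Prime] (O : ValuationSubring K)
    (j : ZMod r →+* IsLocalRing.ResidueField O) {h : T → X → ℤ → ℕ} (ρ : Rep Γ X n K) (h4 : 4 < Fintype.card n)
    (hnr : Fintype.card n < r) (hS : IsSep h) (hB : IsBig ρ O r j) (hHT : HasHT ρ h) (Δ : Subgroup Γ)
    (hΔ : Δ.FiniteIndex) (hn : Δ.Normal) (x : X) (c : Matrix n n K) (hc : c.trace = 0) : ∃ a ∈ fam ρ Δ, a x = c := by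
  classical
  have : CharP (IsLocalRing.ResidueField O) r := charP_of_injective_ringHom j.injective r
  have hodd : Odd r := (Fact.out : r.Prime).odd_of_ne_two (by omega)
  have hcast : ∀ k : ℕ, 0 < k → k < r → ((k : ℕ) : IsLocalRing.ResidueField O) ≠ 0 := by
    intro k h1 h2 h3
    rw [CharP.cast_eq_zero_iff _ r] at h3
    have := Nat.le_of_dvd h1 h3
    omega
  have h2 : (2 : IsLocalRing.ResidueField O) ≠ 0 := by
    have := hcast 2 (by norm_num) (by omega)
    exact_mod_cast this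
  have hN : ((Fintype.card n : ℕ) : IsLocalRing.ResidueField O) ≠ 0 := hcast _ (by omega) hnr
  obtain ⟨J₀, hJ₀, hs₀, hbig⟩ := hB.big x
  set J : Matrix n n (IsLocalRing.ResidueField O) := J₀.map j with hJdef
  have hJ : IsUnit J.det := by
    rw [hJdef, show (J₀.map j).det = j J₀.det from (RingHom.map_det j J₀).symm]
    exact hJ₀.map j
  have hneg : (-J₀).map j = -J := by
    ext a b
    simp [hJdef]
  have hs : Jᵀ = J ∨ Jᵀ = -J := by
    rcases hs₀ with h5 | h5
    · left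
      rw [hJdef, ← transpose_map, h5]
    · right
      rw [← hneg, ← h5, hJdef, transpose_map]
  have hs' : Jᵀ = J ∧ ((Fintype.card n : ℕ) : IsLocalRing.ResidueField O) ≠ 2 ∨
      Jᵀ = -J ∧ ((Fintype.card n : ℕ) : IsLocalRing.ResidueField O) ≠ -2 := by
    rcases hs with h5 | h5
    · left
      refine ⟨h5, fun h6 => ?_⟩
      apply hcast (Fintype.card n - 2) (by omega) (by omega)
      rw [Nat.cast_sub (by omega), h6]
      norm_num
    · right
      refine ⟨h5, fun h6 => ?_⟩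
      have heven := even_of_alt h2 hJ h5
      have h7 : ((Fintype.card n + 2 : ℕ) : IsLocalRing.ResidueField O) = 0 := by
        push_cast
        rw [h6]
        norm_num
      rw [CharP.cast_eq_zero_iff _ r] at h7
      obtain ⟨q, hq⟩ := h7
      obtain ⟨k, hk⟩ := hodd
      obtain ⟨l, hl⟩ := heven
      have hq1 : q = 1 := by
        have h8 : r * q < r * 2 := by omega
        have h9 := Nat.lt_of_mul_lt_mul_left h8
        have : q ≠ 0 := by
          rintro rfl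
          omega
        omega
      subst hq1
      omega
  let P : Set (Matrix n n (IsLocalRing.ResidueField O)) :=
    {z | ∃ y : Matrix n n (ZMod r), yᵀ * J₀ + J₀ * y = 0 ∧ y * y = 0 ∧ z = y.map j}
  have hP : ∀ y ∈ P, yᵀ * J + J * y = 0 ∧ y * y = 0 := by
    rintro _ ⟨y, h5, h6, rfl⟩
    constructor
    · have := congrArg (fun M => M.map j) h5
      simpa [Matrix.map_add, Matrix.map_mul, Matrix.transpose_map, hJdef] using this
    · rw [← Matrix.map_mul, h6, Matrix.map_zero _ (map_zero j)]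
  have hspan : ∀ s : Matrix n n (IsLocalRing.ResidueField O), sᵀ * J + J * s = 0 →
      s ∈ Submodule.span (IsLocalRing.ResidueField O) P := fun s hs5 =>
    span_sq (by omega) j h4 hJ₀ hs₀ s hs5
  let L : Submodule K (Matrix n n K) := (fam ρ Δ).map (LinearMap.proj x)
  have hbr : ∀ a ∈ L, ∀ b ∈ L, a * b - b * a ∈ L := by
    rintro _ ⟨a, ha, rfl⟩ _ ⟨b, hb, rfl⟩
    exact ⟨a * b - b * a, fam_br ρ Δ a ha b hb, rfl⟩
  have hconj : ∀ (γ : Γ), ∀ a ∈ L, (ρ x γ : Matrix n n K) * a * (ρ x γ⁻¹ : Matrix n n K) ∈ L := by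
    rintro γ _ ⟨a, ha, rfl⟩
    exact ⟨_, fam_conj ρ hn γ ha, rfl⟩
  have hL : ∀ y ∈ P, ∃ g' h' : Matrix n n O, g' * h' = 1 ∧
      g'.map (IsLocalRing.residue O) = 1 + y ∧
      ∀ a ∈ L, g'.map (algebraMap O K) * a * h'.map (algebraMap O K) ∈ L ∧
        h'.map (algebraMap O K) * a * g'.map (algebraMap O K) ∈ L := by
    rintro _ ⟨y, h5, h6, rfl⟩
    obtain ⟨γ, M₀, hM1, hM2⟩ := hbig (1 + y) (isom_of_sq h5 h6).1 (isom_of_sq h5 h6).2
    let N₀ : Matrix n n O := Matrix.of fun a b => ⟨(ρ x γ⁻¹ : Matrix n n K) a b, hB.int x γ⁻¹ a b⟩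
    have hN₀ : (ρ x γ⁻¹ : Matrix n n K) = N₀.map (algebraMap O K) := by
      ext a b
      rfl
    refine ⟨M₀, N₀, ?_, ?_, ?_⟩
    · have hinj : Function.Injective (fun M : Matrix n n O => M.map (algebraMap O K)) :=
        Matrix.map_injective (IsFractionRing.injective O K)
      apply hinj
      show (M₀ * N₀).map (algebraMap O K) = (1 : Matrix n n O).map (algebraMap O K)
      rw [Matrix.map_mul, ← hM1, ← hN₀, Matrix.map_one _ (map_zero _) (map_one _), ← Units.val_mul, ← map_mul,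
        mul_inv_cancel, map_one, Units.val_one]
    · rw [hM2, Matrix.map_add _ (fun _ _ => map_add _ _ _), Matrix.map_one _ (map_zero j) (map_one j)]
    · intro a ha
      rw [← hM1, ← hN₀]
      refine ⟨hconj γ a ha, ?_⟩
      have := hconj γ⁻¹ a ha
      rwa [inv_inv] at this
  obtain ⟨t, ht⟩ := hS.asym x
  obtain ⟨S', R, hR⟩ := hHT t
  have hcL : ∑ p ∈ S', (p : K) • R x p ∈ L := ⟨_, ht_fam hR Δ hΔ, rfl⟩
  have hns : ∃ c ∈ L, ∀ l : K, c ≠ l • (1 : Matrix n n K) := by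
    refine ⟨_, hcL, fun l hl => ?_⟩
    obtain ⟨w, hw⟩ := Pool.Agent.Helper79.KM.ht_scalar (hR.mul x) (hR.supp x) hl
    obtain ⟨p, hp⟩ := ht w
    apply hp
    rw [← hR.rank, ← hR.rank]
    exact hw p
  rcases lift_gen79 O h2 h4 hJ hs P hP hspan L hbr hL hns with h1 | ⟨h1, h7⟩
  · exact h1 c hc
  · exfalso
    obtain ⟨b, hb, hbL⟩ := Pool.Agent.Helper3.KN.casimir O h2 hN hJ hs' L hbr h1 h7
    obtain ⟨μ, hμ⟩ := hbL _ hcL
    obtain ⟨w, hw⟩ := Pool.Agent.Helper79.KM.ht_sim (hR.mul x) (hR.supp x) (hR.sum x) hb hμ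
    obtain ⟨p, hp⟩ := ht w
    apply hp
    rw [← hR.rank, ← hR.rank]
    exact hw p

/-- the Lie algebra of the sum of the eigenspaces -/
theorem full_of_blocks [IsAlgClosed K] [CharZero K] {h : T → X → ℤ → ℕ} (ρ : Rep Γ X n K) (hS : IsSep h)
    (hHT : HasHT ρ h) (Δ : Subgroup Γ) (hΔ : Δ.FiniteIndex)
    (hb : ∀ (x : X) (c : Matrix n n K), c.trace = 0 → ∃ a ∈ fam ρ Δ, a x = c)
    (M : X → Matrix n n K) (hM : ∀ x, (M x).det = 1) : blockDiagonal M ∈ zcl (img ρ Δ) := by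
  classical
  refine full_of_LL ρ Δ ?_ M hM
  refine Pool.Agent.Helper15.KN.goursat (fam ρ Δ) (fam_br ρ Δ) hb ?_
  intro x x' hne
  obtain ⟨t, ht⟩ := hS.sep x x' hne
  obtain ⟨S', R, hR⟩ := hHT t
  refine ⟨S', R x, R x', _, ht_fam hR Δ hΔ, hR.mul x, hR.mul x', hR.sum x, hR.sum x', hR.supp x, hR.supp x', rfl,
    rfl, fun w => ?_⟩
  simp only [hR.rank]
  exact ht w

/-- **The representation with the large residual image.** -/
theorem full_r [IsAlgClosed K] [CharZero K] {r : ℕ} [Fact r.Prime] (O : ValuationSubring K)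
    (j : ZMod r →+* IsLocalRing.ResidueField O) {h : T → X → ℤ → ℕ} (ρ : Rep Γ X n K) (h4 : 4 < Fintype.card n)
    (hnr : Fintype.card n < r) (hS : IsSep h) (hB : IsBig ρ O r j) (hHT : HasHT ρ h) : IsFull ρ := by
  intro Δ hΔ M hM
  have := hΔ
  have hfin : Δ.normalCore.FiniteIndex := inferInstance
  refine zcl_mono (img_mono ρ (Subgroup.normalCore_le Δ)) ?_
  exact full_of_blocks ρ hS hHT Δ.normalCore hfin
    (fun x c hc => block_full O j ρ h4 hnr hS hB hHT Δ.normalCore hfin inferInstance x c hc) M hM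

end full

section ell
variable {Γ X T n : Type} [Group Γ] [DecidableEq X] [Fintype X] [Fintype n] [DecidableEq n] {K₀ K : Type} [Field K₀]
  [Field K]

theorem irr_l [CharZero K₀] {ρ₀ : Rep Γ X n K₀} {ρ : Rep Γ X n K} (hf : IsFull ρ₀) (hC : IsCompat ρ₀ ρ) (x : X)
    (Δ : Subgroup Γ) (hΔ : Δ.FiniteIndex) (W : Submodule K (n → K))
    (hW : ∀ γ ∈ Δ, ∀ w ∈ W, (ρ x γ : Matrix n n K) *ᵥ w ∈ W) : W = ⊥ ∨ W = ⊤ := by
  by_contra hcon
  push Not at hcon
  obtain ⟨Δ', ψ, hle, hfin, hψ⟩ := hC.det x Δ hΔ W hW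
  have h1 : 0 < Module.finrank K W := by
    rw [Nat.pos_iff_ne_zero]
    intro h0
    exact hcon.1 (Submodule.finrank_eq_zero.1 h0)
  have h2 : Module.finrank K W < Fintype.card n := by
    have := Submodule.finrank_lt hcon.2
    rwa [Module.finrank_fintype_fun_eq_card] at this
  exact Pool.Agent.Helper79.KM.no_char (ρ := ρ₀ x) ψ h1 h2
    (fun M hM => zcl_block ρ₀ Δ' (hf Δ' hfin (fun _ => M) fun _ => hM) x) hψ

theorem full_other [CharZero K₀] [IsAlgClosed K₀] [CharZero K] [IsAlgClosed K] {h : T → X → ℤ → ℕ}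
    {ρ₀ : Rep Γ X n K₀} {ρ : Rep Γ X n K} (hS : IsSep h) (hf : IsFull ρ₀) (hHT : HasHT ρ h)
    (hC : IsCompat ρ₀ ρ) : IsFull ρ := by
  intro Δ hΔ M hM
  obtain ⟨γ, hγ, u, v, hu, hv, hrel⟩ := hC.frob Δ hΔ
  have hind : ∀ (x : X) (m : n → ℤ), ∏ i, u x i ^ m i = 1 → ∀ i j, m i = m j := by
    intro x m hm
    obtain ⟨_, Δ', _, hfin, h1⟩ := hrel x m hm
    exact Pool.Agent.Helper79.KM.no_rel (ρ := ρ₀ x) (Δ := Δ')
      (fun M hM => zcl_block ρ₀ Δ' (hf Δ' hfin (fun _ => M) fun _ => hM) x) m h1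
  refine full_of_blocks ρ hS hHT Δ hΔ (fun x c hc => ?_) M hM
  obtain ⟨M', h1, h2⟩ := Pool.Agent.Helper31.KN.full_l ρ Δ hΔ hγ u hu hind x (fun Δ' hΔ' W hW => irr_l hf hC x Δ' hΔ' W hW) c hc
  exact ⟨M', h2, h1⟩

end ell

/-- **The criterion.** -/
theorem criterion {Γ X T n K₀ K : Type} [Group Γ] [Fintype X] [DecidableEq X] [Fintype n] [DecidableEq n] [Field K₀]
    [IsAlgClosed K₀] [CharZero K₀] [Field K] [IsAlgClosed K] [CharZero K] {r : ℕ} [Fact r.Prime]
    (O : ValuationSubring K₀) (j : ZMod r →+* IsLocalRing.ResidueField O) {h : T → X → ℤ → ℕ} {ρ₀ : Rep Γ X n K₀}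
    (h4 : 4 < Fintype.card n) (hnr : Fintype.card n < r) (hS : IsSep h) (hB : IsBig ρ₀ O r j) (hHT : HasHT ρ₀ h) :
    IsFull ρ₀ ∧ ∀ ρ : Rep Γ X n K, HasHT ρ h → IsCompat ρ₀ ρ → IsFull ρ := by
  have h1 : IsFull ρ₀ := full_r O j ρ₀ h4 hnr hS hB hHT
  exact ⟨h1, fun ρ hHT' hC => full_other hS h1 hHT' hC⟩

/-- **Theorem** (both parts of `Main`). -/
theorem main : Main := by
  refine ⟨?_, ?_⟩
  · intro Γ X T n K₀ K _ _ _ _ _ _ _ _ _ _ _ r _ O j h ρ₀ h4 hnr hS hB hHT
    exact criterion O j h4 hnr hS hB hHT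
  · intro m a r e hr he hco ha hN hA
    exact isSep_spec m a r e hr he hco ha hN hA

end Pool.Agent.Helper79.KN
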