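import Pool.Agent.Helper79.KN.Blk
import Pool.Agent.Helper79.KM.Ht
import Pool.Agent.Helper53.KM.NoChar
import Pool.Agent.Helper67.KM.NoRel

/-! The assembly. -/

set_option autoImplicit false

open Matrix H77MT

namespace Pool.Agent.Helper79.KN

section basic
variable {Γ X : Type} [Group Γ] [DecidableEq X] [Fintype X] {n K : Type} [Fintype n] [DecidableEq n] [Field K]

omit [Fintype X] in
theorem mat_mul (ρ : Rep Γ X n K) (γ γ' : Γ) [Fintype X] : mat ρ (γ * γ') = mat ρ γ * mat ρ γ' := by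
  rw [mat, mat, mat, ← blockDiagonal_mul]
  congr 1
  funext x
  rw [map_mul]
  rfl

omit [Fintype X] in
theorem mat_one (ρ : Rep Γ X n K) : mat ρ 1 = 1 := by
  rw [mat, ← blockDiagonal_one]
  congr 1
  funext x
  rw [map_one]
  rfl

theorem img_mul2 (ρ : Rep Γ X n K) (Δ : Subgroup Γ) : ∀ s ∈ img ρ Δ, ∀ t ∈ img ρ Δ, s * t ∈ img ρ Δ := by
  rintro _ ⟨γ, hγ, rfl⟩ _ ⟨γ', hγ', rfl⟩
  exact ⟨γ * γ', Δ.mul_mem hγ hγ', (mat_mul ρ γ γ').symm⟩

omit [Fintype X] in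
theorem img_mono (ρ : Rep Γ X n K) {Δ Δ' : Subgroup Γ} (h : Δ' ≤ Δ) : img ρ Δ' ⊆ img ρ Δ := by
  rintro _ ⟨γ, hγ, rfl⟩
  exact ⟨γ, h hγ, rfl⟩

theorem zcl_mono {S S' : Set (Matrix n n K)} (h : S ⊆ S') : zcl S ⊆ zcl S' :=
  fun _ hx f hf => hx f fun s hs => hf s (h hs)

/-- the families of matrices in the Lie algebra -/
noncomputable def fam (ρ : Rep Γ X n K) (Δ : Subgroup Γ) : Submodule K (X → Matrix (n) (n) K) where
  carrier := {M | blockDiagonal M ∈ LL (img ρ Δ)}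
  add_mem' := by
    intro a b ha hb
    show blockDiagonal (a + b) ∈ LL (img ρ Δ)
    rw [blockDiagonal_add]
    exact (LL (img ρ Δ)).add_mem ha hb
  zero_mem' := by
    show blockDiagonal (0 : X → Matrix (n) (n) K) ∈ LL (img ρ Δ)
    rw [blockDiagonal_zero]
    exact (LL (img ρ Δ)).zero_mem
  smul_mem' := by
    intro c a ha
    show blockDiagonal (c • a) ∈ LL (img ρ Δ)
    rw [blockDiagonal_smul]
    exact (LL (img ρ Δ)).smul_mem c ha

theorem mem_fam {ρ : Rep Γ X n K} {Δ : Subgroup Γ} {M : X → Matrix (n) (n) K} :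
    M ∈ fam ρ Δ ↔ blockDiagonal M ∈ LL (img ρ Δ) := Iff.rfl

theorem fam_br (ρ : Rep Γ X n K) (Δ : Subgroup Γ) : ∀ a ∈ fam ρ Δ, ∀ b ∈ fam ρ Δ, a * b - b * a ∈ fam ρ Δ := by
  intro a ha b hb
  rw [mem_fam] at *
  rw [blockDiagonal_sub]
  have e1 : blockDiagonal (a * b) = blockDiagonal a * blockDiagonal b := by
    rw [← blockDiagonal_mul]; rfl
  have e2 : blockDiagonal (b * a) = blockDiagonal b * blockDiagonal a := by
    rw [← blockDiagonal_mul]; rfl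
  rw [e1, e2]
  exact LL_bracket ha hb

theorem fam_conj (ρ : Rep Γ X n K) {Δ : Subgroup Γ} (hn : Δ.Normal) (γ : Γ) {a : X → Matrix (n) (n) K}
    (ha : a ∈ fam ρ Δ) :
    (fun x => (ρ x γ : Matrix (n) (n) K) * a x * (ρ x γ⁻¹ : Matrix (n) (n) K)) ∈ fam ρ Δ := by
  rw [mem_fam] at *
  have e : blockDiagonal (fun x => (ρ x γ : Matrix (n) (n) K) * a x * (ρ x γ⁻¹ : Matrix (n) (n) K)) =
      mat ρ γ * blockDiagonal a * mat ρ γ⁻¹ := by
    rw [mat, mat, ← blockDiagonal_mul, ← blockDiagonal_mul]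
  rw [e]
  refine Pool.Agent.Helper77.KM.LL_norm (g := mat ρ γ⁻¹) (g' := mat ρ γ) ?_ ?_ ?_ ha
  · rw [← mat_mul, inv_mul_cancel, mat_one]
  · rintro _ ⟨δ, hδ, rfl⟩
    refine ⟨γ⁻¹ * δ * γ, ?_, ?_⟩
    · have := hn.conj_mem δ hδ γ⁻¹
      rwa [inv_inv] at this
    · rw [mat_mul, mat_mul]
  · rintro _ ⟨δ, hδ, rfl⟩
    exact ⟨γ * δ * γ⁻¹, hn.conj_mem δ hδ γ, by rw [mat_mul, mat_mul]⟩

omit [Fintype X] in
theorem bd_sum (P : Finset ℤ) (f : ℤ → X → Matrix (n) (n) K) :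
    blockDiagonal (fun x => ∑ p ∈ P, f p x) = ∑ p ∈ P, blockDiagonal (f p) := by
  have h1 : (fun x => ∑ p ∈ P, f p x) = ∑ p ∈ P, f p := by
    funext x
    rw [Finset.sum_apply]
  rw [h1]
  exact map_sum (blockDiagonalAddMonoidHom n n X K) f P

/-- the element of the grading -/
theorem ht_fam [CharZero K] {ρ : Rep Γ X n K} {h : X → ℤ → ℕ} {S : Finset ℤ} {R : X → ℤ → Matrix (n) (n) K}
    (hR : IsHT ρ h S R) (Δ : Subgroup Γ) (hΔ : Δ.FiniteIndex) :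
    (fun x => ∑ p ∈ S, (p : K) • R x p) ∈ fam ρ Δ := by
  rw [mem_fam]
  have e : blockDiagonal (fun x => ∑ p ∈ S, (p : K) • R x p) =
      ∑ p ∈ S, (p : K) • blockDiagonal (fun x => R x p) := by
    rw [bd_sum]
    refine Finset.sum_congr rfl fun p _ => ?_
    rw [← blockDiagonal_smul]
    rfl
  rw [e]
  refine Pool.Agent.Helper77.KM.LL_ht (img_mul2 ρ Δ) S _ (fun z hz => ?_) ?_
  · have h1 := hR.mem Δ hΔ z hz
    rw [bd_sum] at h1
    convert h1 using 1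
    refine Finset.sum_congr rfl fun p _ => ?_
    rw [← blockDiagonal_smul]
    rfl
  · rw [← bd_sum S (fun p x => R x p), ← blockDiagonal_one]
    congr 1
    funext x
    exact hR.sum x

end basic

end Pool.Agent.Helper79.KN
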