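import Pool.Agent.Helper79.KN.Defs
import Pool.Agent.Helper85.KM.B4
import Pool.Agent.Helper77.KM.B

/-! Blocks B1 - B4, B7 for any index type. -/

set_option autoImplicit false

open Matrix H77MT

namespace Pool.Agent.Helper79.KN

variable {K : Type} [Field K] {Γ X : Type} [Group Γ] [DecidableEq X] {n : Type} [Fintype n] [DecidableEq n]


lemma one_mem_img (ρ : Rep Γ X n K) (Δ : Subgroup Γ) : (1 : Matrix (n × X) (n × X) K) ∈ img ρ Δ := by
  refine ⟨1, Δ.one_mem, ?_⟩
  rw [mat]
  simp only [map_one]
  exact (blockDiagonal_one (m := n) (o := X) (α := K)).symm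

lemma img_mul [Fintype X] (ρ : Rep Γ X n K) (Δ : Subgroup Γ) : ∀ s ∈ img ρ Δ, ∀ t ∈ img ρ Δ, s * t ∈ img ρ Δ := by
  rintro _ ⟨a, ha, rfl⟩ _ ⟨b, hb, rfl⟩
  refine ⟨a * b, Δ.mul_mem ha hb, ?_⟩
  rw [mat, mat, mat, ← blockDiagonal_mul]
  congr 1
  funext x
  rw [map_mul]
  rfl

variable [Fintype X]

/-- B3 -/
theorem LL_block (ρ : Rep Γ X n K) (Δ : Subgroup Γ) {A : Matrix (n × X) (n × X) K} (hA : A ∈ LL (img ρ Δ)) :
    ∃ M : X → Matrix (n) (n) K, A = blockDiagonal M := by
  refine ⟨fun x => Matrix.of fun i j => A (i, x) (j, x), ?_⟩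
  refine Matrix.ext fun a b => ?_
  obtain ⟨i, x⟩ := a
  obtain ⟨j, y⟩ := b
  rw [blockDiagonal_apply]
  by_cases h : x = y
  · subst h
    rw [if_pos rfl]
    rfl
  · have h' : x ≠ y := h
    rw [if_neg h]
    have h1 : (1 : Matrix (n × X) (n × X) K) ∈ img ρ Δ := by
      refine ⟨1, Δ.one_mem, ?_⟩
      have e : (fun x : X => ((ρ x 1 : GL (n) K) : Matrix (n) (n) K)) = 1 := by
        funext x
        rw [map_one]
        rfl
      rw [mat, e, blockDiagonal_one]
    have h2 := hA (MvPolynomial.X ((i, x), (j, y))) (by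
      rintro s ⟨γ, -, rfl⟩
      rw [ev_X, mat, blockDiagonal_apply, if_neg h']) 1 h1
    rw [DD_X, map_sum, Finset.sum_eq_single (i, x)] at h2
    · simpa using h2
    · intro k _ hk
      rw [map_mul, ev_C, ev_X, Matrix.one_apply_ne (Ne.symm hk), mul_zero]
    · intro hk
      exact absurd (Finset.mem_univ _) hk

/-- B4 -/
theorem full_of_LL [CharZero K] (ρ : Rep Γ X n K) (Δ : Subgroup Γ)
    (h : ∀ M : X → Matrix (n) (n) K, (∀ x, (M x).trace = 0) → blockDiagonal M ∈ LL (img ρ Δ))
    (M : X → Matrix (n) (n) K) (hM : ∀ x, (M x).det = 1) : blockDiagonal M ∈ zcl (img ρ Δ) := by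
  have hone := one_mem_img ρ Δ
  have hmul := img_mul ρ Δ
  have key : ∀ (x : X) (A : Matrix.SpecialLinearGroup (n) K),
      blockDiagonal (Pi.mulSingle x (SpecialLinearGroup.coeMonoidHom A)) ∈ zcl (img ρ Δ) := by
    intro x
    have hm : ∀ A B : Matrix.SpecialLinearGroup (n) K,
        blockDiagonal (Pi.mulSingle x (SpecialLinearGroup.coeMonoidHom A)) ∈ zcl (img ρ Δ) →
        blockDiagonal (Pi.mulSingle x (SpecialLinearGroup.coeMonoidHom B)) ∈ zcl (img ρ Δ) →
        blockDiagonal (Pi.mulSingle x (SpecialLinearGroup.coeMonoidHom (A * B))) ∈ zcl (img ρ Δ) := by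
      intro A B hA hB
      have := zcl_mul hmul hA hB
      rw [← blockDiagonal_mul] at this
      convert this using 2
      rw [map_mul, Pi.mulSingle_mul]
      rfl
    have ht : ∀ (i j : n) (hij : i ≠ j) (a : K), blockDiagonal (Pi.mulSingle x
        (SpecialLinearGroup.coeMonoidHom (SpecialLinearGroup.transvection hij a))) ∈ zcl (img ρ Δ) := by
      intro i j hij a
      have h1 : blockDiagonal (Pi.single x (single i j (1 : K))) ∈ LL (img ρ Δ) := by
        apply h
        intro y
        by_cases hy : y = x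
        · subst hy
          rw [Pi.single_eq_same, trace_single_eq_of_ne _ _ _ hij]
        · rw [Pi.single_eq_of_ne hy, trace_zero]
      have h2 : blockDiagonal (Pi.single x (single i j (1 : K))) * blockDiagonal (Pi.single x (single i j (1 : K))) =
          (0 : Matrix (n × X) (n × X) K) := by
        rw [← blockDiagonal_mul, ← blockDiagonal_zero]
        congr 1
        funext y
        by_cases hy : y = x
        · subst hy
          rw [Pi.single_eq_same, single_mul_single_of_ne _ _ _ _ hij.symm]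
          rfl
        · rw [Pi.single_eq_of_ne hy, Matrix.mul_zero]
          rfl
      have h3 := one_add_mem_zcl hone h1 h2 a
      convert h3 using 1
      rw [← blockDiagonal_one, ← blockDiagonal_smul, ← blockDiagonal_add]
      congr 1
      funext y
      by_cases hy : y = x
      · subst hy
        rw [Pi.mulSingle_eq_same, Pi.add_apply, Pi.smul_apply, Pi.single_eq_same, SpecialLinearGroup.coeMonoidHom_apply,
          SpecialLinearGroup.transvection_coe, smul_single, smul_eq_mul, mul_one]
        rfl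
      · rw [Pi.mulSingle_eq_of_ne hy, Pi.add_apply, Pi.smul_apply, Pi.single_eq_of_ne hy, smul_zero, add_zero]
        rfl
    intro A
    rcases subsingleton_or_nontrivial n with hg | hnt
    · have : A = 1 := Subsingleton.elim _ _
      rw [this, map_one, Pi.mulSingle_one, blockDiagonal_one]
      exact subset_zcl _ hone
    · refine SpecialLinearGroup.diagonal_transvection_induction'
        (fun A => blockDiagonal (Pi.mulSingle x (SpecialLinearGroup.coeMonoidHom A)) ∈ zcl (img ρ Δ)) A ?_ ht hm
      intro i j hij c hc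
      rw [Pool.Agent.Helper85.KM.diag2n_eq hij c hc]
      exact hm _ _ (hm _ _ (hm _ _ (ht _ _ _ _) (ht _ _ _ _)) (ht _ _ _ _))
        (hm _ _ (hm _ _ (ht _ _ _ _) (ht _ _ _ _)) (ht _ _ _ _))
  have fin : ∀ s : Finset X, blockDiagonal (fun x => if x ∈ s then M x else 1) ∈ zcl (img ρ Δ) := by
    intro s
    induction s using Finset.induction_on with
    | empty =>
      simp only [Finset.notMem_empty, if_false]
      have : blockDiagonal (fun _ : X => (1 : Matrix (n) (n) K)) = 1 := blockDiagonal_one
      rw [this]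
      exact subset_zcl _ hone
    | insert x s hx ih =>
      have h1 := zcl_mul hmul (key x ⟨M x, hM x⟩) ih
      rw [← blockDiagonal_mul] at h1
      convert h1 using 2
      funext y
      by_cases hy : y = x
      · subst hy
        rw [Pi.mulSingle_eq_same, if_pos (Finset.mem_insert_self _ _), if_neg hx, Matrix.mul_one]
        rfl
      · rw [Pi.mulSingle_eq_of_ne hy, Matrix.one_mul]
        simp [Finset.mem_insert, hy]
  have := fin Finset.univ
  simpa using this


/-- B7 -/
theorem zcl_block (ρ : Rep Γ X n K) (D : Subgroup Γ) {M : X → Matrix (n) (n) K}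
    (h : blockDiagonal M ∈ zcl (img ρ D)) (x : X) :
    M x ∈ zcl {s | ∃ γ ∈ D, s = (ρ x γ : Matrix (n) (n) K)} := by
  intro f hf
  have hev : ∀ N : X → Matrix (n) (n) K,
      ev (blockDiagonal N) (MvPolynomial.rename (fun p : n × n => ((p.1, x), (p.2, x))) f) = ev (N x) f := by
    intro N
    unfold ev
    rw [MvPolynomial.aeval_rename]
    congr 2
    funext p
    simp [Matrix.blockDiagonal_apply]
  rw [← hev M]
  refine h _ ?_
  rintro _ ⟨γ, hγ, rfl⟩
  unfold mat
  rw [hev]
  exact hf _ ⟨γ, hγ, rfl⟩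


end Pool.Agent.Helper79.KN
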