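import Pool.Agent.Helper79.KN.Tower
import Pool.Agent.Helper79.KN.Asm2
import Pool.Agent.Helper35.KN.SepY

/-! The numbers of a tower are separated. -/

set_option autoImplicit false

namespace Pool.Agent.Helper79.KN

theorem isSep_of_tower {X T n : Type} [Fintype n] {r : ℕ} (hr : r.Prime) {h : T → X → ℤ → ℕ} (hh : IsTower n r h) :
    IsSep h := by
  obtain ⟨y, A, e, c, u, hy, hA, hu, hx, hc, hn⟩ := hh
  have he : ∀ x : X, 0 < e := by
    intro x
    rcases Nat.eq_zero_or_pos e with h0 | h0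
    · have := hx x
      rw [h0, pow_zero] at this
      omega
    · exact h0
  constructor
  · intro x
    have hs := isSep_towerNum y A r e hy hr (he x) hA
    obtain ⟨t, ht⟩ := hs.asym ⟨u x, hx x⟩
    obtain ⟨t', ht'⟩ := hc t.1 t.2
    refine ⟨t', fun w => ?_⟩
    obtain ⟨p, hp⟩ := ht w
    refine ⟨p, ?_⟩
    rw [hn, hn, ht']
    exact hp
  · intro x x' hne
    have hs := isSep_towerNum y A r e hy hr (he x) hA
    obtain ⟨t, ht⟩ := hs.sep ⟨u x, hx x⟩ ⟨u x', hx x'⟩ (fun h1 => hne (hu (congrArg Subtype.val h1)))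
    obtain ⟨t', ht'⟩ := hc t.1 t.2
    refine ⟨t', fun w => ?_⟩
    simp only [hn, ht']
    exact ht w

end Pool.Agent.Helper79.KN
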