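import Pool.Agent.Helper79.KN.Defs

/-! Numbers given by a spectrum: definitions. -/

set_option autoImplicit false

namespace Pool.Agent.Helper79.KN

/-- The number of `i` with integral part of `y i + s / M` equal to `q`. -/
def num {n : Type} [Fintype n] (y : n → ℚ) (M s : ℕ) (q : ℤ) : ℕ :=
  (Finset.univ.filter fun i => ⌊y i + (s : ℚ) / M⌋ = q).card

/-- The numbers `y i` are not integers, their denominators divide `A`, they are symmetric, their least fractional part is at
most `1 / 4`, and less than one half of them have this fractional part. -/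
structure IsSpectrum {n : Type} [Fintype n] (y : n → ℚ) (A : ℕ) : Prop where
  pos : 0 < A
  den : ∀ i, ∃ z : ℤ, (A : ℚ) * y i = z
  nonint : ∀ i (z : ℤ), y i ≠ z
  symm : ∃ (σ : Equiv.Perm n) (m : ℤ), ∀ i, y (σ i) = m - y i
  least : ∃ δ : ℚ, 4 * δ ≤ 1 ∧ (∀ i, δ ≤ Int.fract (y i)) ∧ (∃ i, Int.fract (y i) = δ) ∧
    2 * (Finset.univ.filter fun i => Int.fract (y i) = δ).card < Fintype.card n

/-- The numbers of the parts of the cohomology of `w ^ (r ^ e) = f`, for a polynomial `f` with the spectrum `y`. -/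
def towerNum {n : Type} [Fintype n] (y : n → ℚ) (r e : ℕ) (t : {t : ℕ // Nat.Coprime t r})
    (u : {u : ℕ // 0 < u ∧ 2 * u < r ^ e}) (q : ℤ) : ℕ := num y (r ^ e) (t.1 * u.1 % r ^ e) q

end Pool.Agent.Helper79.KN
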