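import Pool.Agent.Helper79.KN.Spectrum

/-! Towers: definitions. -/

set_option autoImplicit false

namespace Pool.Agent.Helper79.KN

/-- The numbers of the parts of the cohomology of `w ^ (r ^ e) = f` for characters `u x` of order dividing `r ^ e`, not two of
them conjugate, for a polynomial `f` with a spectrum `y` with denominators dividing `A`, `2 A < r`. -/
def IsTower {X T : Type} (n : Type) [Fintype n] (r : ℕ) (h : T → X → ℤ → ℕ) : Prop :=
  ∃ (y : n → ℚ) (A e : ℕ) (c : T → ℕ) (u : X → ℕ), IsSpectrum y A ∧ 2 * A < r ∧ Function.Injective u ∧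
    (∀ x, 0 < u x ∧ 2 * u x < r ^ e) ∧ (∀ k : ℕ, Nat.Coprime k r → ∃ t, c t = k) ∧
    ∀ t x q, h t x q = num y (r ^ e) (c t * u x % r ^ e) q

end Pool.Agent.Helper79.KN
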